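import Pool.Agent.PST.StmtsET3

/-!
# Squad PST, block ET, row BCM: the Brauer kernel of `V` consists of sums of commutators
-/

open scoped BigOperators TensorProduct

noncomputable section

namespace Pool.Agent.PST.ET.H19

open Pool.Agent.PFC (Fx BK cj bi IsTv)

theorem card_tv {H : Type} [Group H] [Finite H] (P' P : Subgroup H) (hle : P' ≤ P)
    (S : Finset H) (hS : IsTv P' P S) : S.card * Nat.card P' = Nat.card P := by
  classical
  have : Fintype H := Fintype.ofFinite H
  have hb : Function.Bijective (fun z : S × P' =>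
      (⟨(z.1 : H) * (z.2 : H), P.mul_mem (hS.1 _ z.1.2) (hle z.2.2)⟩ : P)) := by
    constructor
    · rintro ⟨⟨s, hs⟩, ⟨q, hq⟩⟩ ⟨⟨s', hs'⟩, ⟨q', hq'⟩⟩ h
      simp only [Subtype.mk.injEq] at h
      have hp : s * q ∈ P := P.mul_mem (hS.1 _ hs) (hle hq)
      obtain ⟨t, -, ht⟩ := hS.2 (s * q) hp
      have h1 : s = t := ht s ⟨hs, by simpa using hq⟩
      have h2 : s' = t := ht s' ⟨hs', by rw [h]; simpa using hq'⟩
      have h3 : s = s' := h1.trans h2.symm
      subst h3
      have h4 : q = q' := mul_left_cancel h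
      subst h4
      rfl
    · intro p
      obtain ⟨s, ⟨hs, hs2⟩, -⟩ := hS.2 p p.2
      exact ⟨(⟨s, hs⟩, ⟨_, hs2⟩), Subtype.ext (by simp)⟩
  have h := Nat.card_congr (Equiv.ofBijective _ hb)
  rw [Nat.card_prod, Nat.card_eq_fintype_card (α := S), Fintype.card_coe] at h
  exact h

theorem bcm : BcmStmt := by
  intro ℓ _ F V H _ _ _ _ _ _ α hV m hm
  refine Submodule.span_induction (p := fun x _ => x ∈ cmt F H) ?_ (Submodule.zero_mem _)
    (fun x y _ _ hx hy => Submodule.add_mem _ hx hy)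
    (fun a x _ hx => Submodule.smul_mem _ a hx) hm
  rintro n ⟨P', S, m, hlt, hS, -, rfl⟩
  have hcm : ∀ x : V, cj F α x m - m ∈ cmt F H := by
    intro x
    refine Submodule.subset_span ⟨α x, m * α x⁻¹, ?_⟩
    have h1 : cj F α x m = α x * (m * α x⁻¹) := rfl
    rw [h1, mul_assoc m, ← map_mul, inv_mul_cancel, map_one, mul_one]
  have hcard : (S.card : F) = 0 := by
    have hc := card_tv P' ⊤ hlt.le S hS
    obtain ⟨k, hk⟩ := (IsPGroup.iff_card).1 (hV.to_subgroup (⊤ : Subgroup V))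
    have hdiv : S.card ∣ ℓ ^ k := ⟨_, by rw [← hk]; exact hc.symm⟩
    obtain ⟨j, -, hj⟩ := (Nat.dvd_prime_pow (Fact.out : ℓ.Prime)).1 hdiv
    rcases Nat.eq_zero_or_pos j with h0 | h0
    · exfalso
      rw [h0, pow_zero] at hj
      rw [hj, one_mul] at hc
      exact hlt.ne (Subgroup.eq_of_le_of_card_ge hlt.le hc.ge)
    · rw [hj, Nat.cast_pow, CharP.cast_eq_zero, zero_pow h0.ne']
  have h2 : ∑ x ∈ S, cj F α x m = ∑ x ∈ S, (cj F α x m - m) := by
    rw [Finset.sum_sub_distrib, Finset.sum_const, ← Nat.cast_smul_eq_nsmul F, hcard, zero_smul,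
      sub_zero]
  rw [h2]
  exact Submodule.sum_mem _ fun x _ => hcm x

end Pool.Agent.PST.ET.H19
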