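import Pool.Agent.PST.StmtsET3

/-!
# Squad PST, block ET, row DCI: decomposition of an idempotent of the centraliser of `V`
-/

open scoped BigOperators TensorProduct

noncomputable section

namespace Pool.Agent.PST.ET.H19

open Pool.Agent.PSS (FxR BKR cw)
open Pool.Agent.PSS.S5 (Loi FitStmt)

section

variable {F V H : Type} [Field F] [CommGroup V] [Ring H] [Algebra F H] {α : V →* H}

theorem mem_fx {m : H} : m ∈ FxR (cw F α) ⊤ ↔ ∀ u, α u * m = m * α u := by
  have hcw : ∀ u : V, cw F α u m = α u * (m * α u⁻¹) := fun u => rfl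
  constructor
  · intro h u
    have h1 : cw F α u m = m := h u trivial
    rw [hcw] at h1
    calc α u * m = α u * (m * α u⁻¹) * α u := by
          rw [mul_assoc, mul_assoc, ← map_mul, inv_mul_cancel, map_one, mul_one]
      _ = m * α u := by rw [h1]
  · intro h u _
    rw [hcw, ← mul_assoc, h u, mul_assoc, ← map_mul, mul_inv_cancel, map_one, mul_one]

variable (F α) in
/-- the space of the idempotent `b` -/
def wsp (b : H) : Submodule F H where
  carrier := {x | x ∈ FxR (cw F α) ⊤ ∧ b * x = x ∧ x * b = x}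
  add_mem' := by
    rintro x y ⟨h1, h2, h3⟩ ⟨h4, h5, h6⟩
    exact ⟨Submodule.add_mem _ h1 h4, by rw [mul_add, h2, h5], by rw [add_mul, h3, h6]⟩
  zero_mem' := ⟨Submodule.zero_mem _, mul_zero _, zero_mul _⟩
  smul_mem' := by
    rintro a x ⟨h1, h2, h3⟩
    exact ⟨Submodule.smul_mem _ a h1, by rw [mul_smul_comm, h2], by rw [smul_mul_assoc, h3]⟩

theorem wsp_lt {b j : H} (hb : b ∈ FxR (cw F α) ⊤) (hbb : b * b = b) (hbj : b * j = j)
    (hjb : j * b = j) (hne : j ≠ b) : wsp F α j < wsp F α b := by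
  refine lt_of_le_of_ne ?_ ?_
  · rintro x ⟨h1, h2, h3⟩
    refine ⟨h1, ?_, ?_⟩
    · rw [← h2, ← mul_assoc, hbj]
    · rw [← h3, mul_assoc, hjb]
  · intro h
    have h1 : b ∈ wsp F α b := ⟨hb, hbb, hbb⟩
    rw [← h] at h1
    have h2 : j * b = b := h1.2.1
    exact hne (hjb.symm.trans h2)

end

theorem dci (hF : FitStmt) : DciStmt := by
  intro F V H _ _ _ _ _ α
  have key : ∀ (n : ℕ) (b : H), Module.finrank F (wsp F α b) = n → b ∈ FxR (cw F α) ⊤ →
      b * b = b → ∃ (n : ℕ) (j : Fin n → H), (∀ i, j i ∈ FxR (cw F α) ⊤ ∧ b * j i = j i) ∧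
        (∀ i, Loi F α (j i) ∨ j i ∈ BKR (cw F α) ⊤) ∧ ∑ i, j i = b := by
    intro n
    induction n using Nat.strong_induction_on with
    | _ n ih =>
    intro b hn hb hbb
    by_cases h0 : Loi F α b ∨ b ∈ BKR (cw F α) ⊤
    · exact ⟨1, fun _ => b, fun _ => ⟨hb, hbb⟩, fun _ => h0, by simp⟩
    · rw [not_or] at h0
      obtain ⟨hL, hB⟩ := h0
      have hloc : ∃ x ∈ FxR (cw F α) ⊤, ¬ IsNilpotent (b * x * b) ∧
          ¬ ∃ y ∈ FxR (cw F α) ⊤, b * x * b * (b * y * b) = b ∧ b * y * b * (b * x * b) = b := by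
        by_contra hcon
        push Not at hcon
        refine hL ⟨hb, hbb, hB, fun x hx => ?_⟩
        by_cases hnil : IsNilpotent (b * x * b)
        · exact Or.inl hnil
        · exact Or.inr (hcon x hx hnil)
      obtain ⟨x, hx, hnil, hinv⟩ := hloc
      have hmem : ∀ m : H, m ∈ Subalgebra.centralizer F (Set.range α) ↔
          m ∈ FxR (cw F α) ⊤ := by
        intro m
        rw [mem_fx, Subalgebra.mem_centralizer_iff]
        constructor
        · intro h u
          exact h (α u) ⟨u, rfl⟩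
        · rintro h _ ⟨u, rfl⟩
          exact h u
      obtain ⟨j1, hj1, hjj, hbj, hjb, hj0, hjne⟩ :=
        hF F H (Subalgebra.centralizer F (Set.range α)) b x ((hmem b).2 hb) ((hmem x).2 hx) hbb
          hnil (by
            rintro ⟨y, hy, h1, h2⟩
            exact hinv ⟨y, (hmem y).1 hy, h1, h2⟩)
      rw [hmem] at hj1
      have h2f : b - j1 ∈ FxR (cw F α) ⊤ := Submodule.sub_mem _ hb hj1
      have h2b : b * (b - j1) = b - j1 := by rw [mul_sub, hbb, hbj]
      have h2b' : (b - j1) * b = b - j1 := by rw [sub_mul, hbb, hjb]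
      have h2i : (b - j1) * (b - j1) = b - j1 := by
        rw [sub_mul, h2b, mul_sub, hjb, hjj, sub_self, sub_zero]
      have h2n : b - j1 ≠ b := by
        intro h
        exact hj0 (sub_eq_self.1 h)
      have l1 := Submodule.finrank_lt_finrank_of_lt (wsp_lt hb hbb hbj hjb hjne)
      have l2 := Submodule.finrank_lt_finrank_of_lt (wsp_lt hb hbb h2b h2b' h2n)
      rw [hn] at l1 l2
      obtain ⟨n1, f1, ha1, hc1, hs1⟩ := ih _ l1 j1 rfl hj1 hjj
      obtain ⟨n2, f2, ha2, hc2, hs2⟩ := ih _ l2 (b - j1) rfl h2f h2i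
      refine ⟨n1 + n2, Fin.append f1 f2, ?_, ?_, ?_⟩
      · intro i
        refine Fin.addCases (fun i => ?_) (fun i => ?_) i
        · rw [Fin.append_left]
          refine ⟨(ha1 i).1, ?_⟩
          rw [← (ha1 i).2, ← mul_assoc, hbj]
        · rw [Fin.append_right]
          refine ⟨(ha2 i).1, ?_⟩
          rw [← (ha2 i).2, ← mul_assoc, h2b]
      · intro i
        refine Fin.addCases (fun i => ?_) (fun i => ?_) i
        · rw [Fin.append_left]
          exact hc1 i
        · rw [Fin.append_right]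
          exact hc2 i
      · rw [Fin.sum_univ_add]
        simp only [Fin.append_left, Fin.append_right]
        rw [hs1, hs2]
        abel
  intro b hb hbb
  exact key _ b rfl hb hbb

end Pool.Agent.PST.ET.H19
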