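import Pool.Agent.PST.StmtsGE

/-!
# Squad PST, row FOM: the first order datum of the deformation with the trivialisation `g`

Only the components `0` and `1` of the elements of `D₀.R` matter; they are computed in the algebra `B`
over `K`.
-/

open scoped BigOperators TensorProduct PowerSeries

noncomputable section

namespace Pool.Agent.PST.H19

open Pool.Agent.PFC (tw IsTv)
open Pool.Agent.PFD.D2 (Cdv FibG)
open Pool.Agent.PFD.D2b (FrR)
open Pool.Agent.PSS
open Dm (cst)

section dm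

variable {k A W : Type} [CommRing k] [Ring A] [Algebra k A] [Group W] {om : W →* A}
  (D : Dm k om)

theorem sq_mul (a b : D.R) : D.sq (a * b) = D.mul (D.sq a) (D.sq b) := by
  have h : a * b = D.of (D.mul (D.sq a) (D.sq b)) := by
    rw [D.of_mul, D.of_sq, D.of_sq]
  rw [h, D.sq_of]

theorem sq_add (a b : D.R) (n : ℕ) : D.sq (a + b) n = D.sq a n + D.sq b n := by
  have h : a + b = D.of (D.sq a + D.sq b) := by
    rw [D.of_add, D.of_sq, D.of_sq]
  rw [h, D.sq_of]
  rfl

theorem sq_neg (a : D.R) (n : ℕ) : D.sq (-a) n = -D.sq a n := by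
  have h : -a = D.of (-D.sq a) := by
    rw [D.of_neg, D.of_sq]
  rw [h, D.sq_of]
  rfl

theorem sq_sub (a b : D.R) (n : ℕ) : D.sq (a - b) n = D.sq a n - D.sq b n := by
  rw [sub_eq_add_neg, sq_add, sq_neg, sub_eq_add_neg]

theorem sq_one (n : ℕ) : D.sq 1 n = if n = 0 then 1 else 0 := by
  rw [← D.of_one, D.sq_of, cst]

theorem mul_zero_comp (f g : ℕ → A) : D.mul f g 0 = f 0 * g 0 := by
  simp [Dm.mul, D.m0]

theorem mul_one_comp (f g : ℕ → A) :
    D.mul f g 1 = f 0 * g 1 + f 1 * g 0 + D.m 1 (f 0) (g 0) := by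
  simp [Dm.mul, Finset.Nat.antidiagonal_succ, D.m0]

theorem sq_mul_zero (a b : D.R) : D.sq (a * b) 0 = D.sq a 0 * D.sq b 0 := by
  rw [sq_mul, mul_zero_comp]

theorem sq_mul_one (a b : D.R) : D.sq (a * b) 1 =
    D.sq a 0 * D.sq b 1 + D.sq a 1 * D.sq b 0 + D.m 1 (D.sq a 0) (D.sq b 0) := by
  rw [sq_mul, mul_one_comp]

theorem mul_cst_right (w : W) (f : ℕ → A) : D.mul f (cst (om w)) = fun n => f n * om w := by
  funext n
  rw [Dm.mul, Finset.sum_eq_single (0, n)]
  · rw [Finset.sum_eq_single (n, 0)]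
    · simp only [cst, if_true, D.m0]
    · rintro ⟨a, b⟩ h hne
      rcases b with _ | b
      · rw [Finset.HasAntidiagonal.mem_antidiagonal] at h
        simp only [add_zero] at h
        exact absurd (by rw [h]) hne
      · simp [cst]
    · intro h
      exact absurd (by rw [Finset.HasAntidiagonal.mem_antidiagonal]; simp) h
  · rintro ⟨a, b⟩ h hne
    rcases a with _ | a
    · rw [Finset.HasAntidiagonal.mem_antidiagonal] at h
      simp only [zero_add] at h
      exact absurd (by rw [h]) hne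
    · refine Finset.sum_eq_zero fun q _ => ?_
      rw [cst]
      split_ifs
      · exact D.m_om_right a w _
      · rw [map_zero]
  · intro h
    exact absurd (by rw [Finset.HasAntidiagonal.mem_antidiagonal]; simp) h

theorem of_mul_w (g : W) (f : ℕ → A) : D.of f * D.w g = D.of (fun n => f n * om g) := by
  show D.of f * D.of (cst (om g)) = _
  rw [← D.of_mul, mul_cst_right]

theorem sq_w_mul (g : W) (a : D.R) (n : ℕ) : D.sq (D.w g * a) n = om g * D.sq a n := by
  have h : D.w g * a = D.of (fun n => om g * D.sq a n) := by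
    rw [← D.w_mul_of, D.of_sq]
  rw [h, D.sq_of]

end dm

theorem X_smul {F W A : Type} [CommRing F] [Group W] [Ring A] [Algebra F A] {om : W →* A}
    (D : Dm F om) (s : D.R) (h : D.sq s 0 = 0) :
    s = (PowerSeries.X : PowerSeries F) • D.of (fun n => D.sq s (n + 1)) := by
  rw [← D.of_smul]
  conv_lhs => rw [← D.of_sq s]
  congr 1
  funext n
  unfold Dm.smulq
  rcases n with _ | n
  · rw [h, Finset.Nat.antidiagonal_zero, Finset.sum_singleton, PowerSeries.coeff_zero_X,
      zero_smul]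
  · rw [Finset.sum_eq_single (1, n)]
    · rw [PowerSeries.coeff_one_X, one_smul]
    · rintro ⟨a, b⟩ hab hne
      rw [PowerSeries.coeff_X]
      split_ifs with h1
      · exfalso
        apply hne
        rw [Finset.HasAntidiagonal.mem_antidiagonal] at hab
        simp only at h1 hab
        rw [h1] at hab ⊢
        congr 1
        omega
      · rw [zero_smul]
    · intro h1
      exact absurd (by rw [Finset.HasAntidiagonal.mem_antidiagonal]; omega) h1

theorem fom : FomStmt := by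
  intro ℓ _ R K F V A A₀ B κ Ω _ _ _ _ _ _ _ _ _ _ _ _ _ _ _ _ _ W cv f α₀ α lam x y b c C g h D
    D₀ hqα hW H hm
  have hℓ : (ℓ : K) ≠ 0 := by
    exact_mod_cast (Fact.out : ℓ.Prime).ne_zero
  -- the integral corrections
  have ha : ∀ u : V, ∃ a : A, g (C.i (α u)) = (ℓ : K)⁻¹ • C.i (α u * h u) + C.i a := by
    intro u
    obtain ⟨a, ha⟩ := H.gh u
    refine ⟨a, ?_⟩
    have h1 : g (C.i (α u)) = (ℓ : K)⁻¹ • ((ℓ : K) • g (C.i (α u))) := by
      rw [smul_smul, inv_mul_cancel₀ hℓ, one_smul]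
    rw [h1, ha, smul_add, smul_smul, inv_mul_cancel₀ hℓ, one_smul]
  choose a ha using ha
  have hgw : ∀ w ∈ W, ∀ s : B, g (C.i (α w) * s) = C.i (α w) * g s ∧
      g (s * C.i (α w)) = g s * C.i (α w) := fun w hw s => H.wbl w hw s
  -- `a u` commutes with `W`
  have haw : ∀ u, ∀ w ∈ W, α w * a u = a u * α w := by
    intro u w hw
    apply C.inj
    have h1 : C.i (a u) = g (C.i (α u)) - (ℓ : K)⁻¹ • C.i (α u * h u) := by
      rw [ha u]
      abel
    have h2 : α w * α u = α u * α w := by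
      rw [← map_mul, ← map_mul, mul_comm]
    have h3 : α w * (α u * h u) = α u * h u * α w := by
      rw [← mul_assoc, h2, mul_assoc, mul_assoc, H.hv u w]
    rw [map_mul, map_mul, h1, mul_sub, sub_mul, ← (hgw w hw _).1, ← (hgw w hw _).2,
      mul_smul_comm, smul_mul_assoc, ← map_mul C.i (α w) (α u), ← map_mul C.i (α u) (α w),
      ← map_mul C.i (α w) (α u * h u), ← map_mul C.i (α u * h u) (α w), h2, h3]
  have hqaw : ∀ u, ∀ w ∈ W, α₀ w * f.q (a u) = f.q (a u) * α₀ w := by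
    intro u w hw
    rw [← hqα, ← map_mul, haw u w hw, map_mul]
  set lf : V → D₀.R := fun u =>
    D₀.of (fun n => if n = 0 then α₀ u else if n = 1 then -f.q (a u) else 0) with hlf
  have hlf0 : ∀ u, D₀.sq (lf u) 0 = α₀ u := by
    intro u
    rw [hlf, D₀.sq_of]
    rfl
  have hlf1 : ∀ u, D₀.sq (lf u) 1 = -f.q (a u) := by
    intro u
    rw [hlf, D₀.sq_of]
    rfl
  -- powers
  have hpow : ∀ (u : V) (j : ℕ), D₀.sq (lf u ^ j) 0 = α₀ (u ^ j) ∧ ∃ e : A,
      D₀.sq (lf u ^ j) 1 = f.q e ∧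
      C.i e = ((j : K) * (ℓ : K)⁻¹) • C.i (α (u ^ j) * h u) - g (C.i (α (u ^ j))) := by
    intro u j
    induction j with
    | zero =>
      refine ⟨?_, 0, ?_, ?_⟩
      · rw [pow_zero, pow_zero, sq_one, if_pos rfl, map_one]
      · rw [pow_zero, sq_one, if_neg one_ne_zero, map_zero]
      · rw [pow_zero, map_one, map_one, H.one, Nat.cast_zero, zero_mul, zero_smul, map_zero,
          sub_zero]
    | succ j ih =>
      obtain ⟨h0, e, h1, h2⟩ := ih
      refine ⟨?_, ?_⟩
      · rw [pow_succ, sq_mul_zero, h0, hlf0, ← map_mul, ← pow_succ]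
      · obtain ⟨e', he', hqe'⟩ := hm (α (u ^ j)) (α u)
        refine ⟨-(α (u ^ j) * a u) + e * α u + e', ?_, ?_⟩
        · rw [pow_succ, sq_mul_one, h0, h1, hlf0, hlf1, map_add, map_add, map_neg, map_mul,
            map_mul, hqe', hqα, hqα, mul_neg]
        · have h3 : C.i (a u) = g (C.i (α u)) - (ℓ : K)⁻¹ • C.i (α u * h u) := by
            rw [ha u]
            abel
          have h4 : α (u ^ (j + 1)) = α (u ^ j) * α u := by
            rw [← map_mul, ← pow_succ]
          have h5 : α (u ^ j) * h u * α u = α (u ^ j) * α u * h u := by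
            rw [mul_assoc, H.hv u u, mul_assoc]
          rw [map_add, map_add, map_neg, map_mul, map_mul, he', h2, h3, h4, d1, mul_sub, sub_mul,
            mul_smul_comm, smul_mul_assoc, ← map_mul, ← map_mul, ← map_mul, h5, Nat.cast_succ,
            add_mul, add_smul, one_mul, mul_assoc]
          abel
  set G : V → D₀.R := fun u =>
    D₀.of (fun n => D₀.sq (D₀.w (⟨u ^ ℓ, hW u⟩ : W)⁻¹ * lf u ^ ℓ - 1) (n + 1)) with hG
  have hS0 : ∀ u, D₀.sq (D₀.w (⟨u ^ ℓ, hW u⟩ : W)⁻¹ * lf u ^ ℓ - 1) 0 = 0 := by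
    intro u
    rw [sq_sub, sq_one, if_pos rfl, sq_w_mul, (hpow u ℓ).1]
    have h1 : aw α₀ W (⟨u ^ ℓ, hW u⟩ : W)⁻¹ = α₀ (u ^ ℓ)⁻¹ := rfl
    rw [h1, ← map_mul, inv_mul_cancel, map_one, sub_self]
  have hS1 : ∀ u, D₀.sq (D₀.w (⟨u ^ ℓ, hW u⟩ : W)⁻¹ * lf u ^ ℓ - 1) 1 = D u := by
    intro u
    obtain ⟨e, he, hie⟩ := (hpow u ℓ).2
    have h1 : g (C.i (α (u ^ ℓ))) = 0 := by
      have h2 := (hgw (u ^ ℓ) (hW u) 1).1
      rw [mul_one, H.one, mul_zero] at h2
      exact h2
    rw [h1, sub_zero, mul_inv_cancel₀ hℓ, one_smul] at hie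
    have h3 : e = α (u ^ ℓ) * h u := C.inj hie
    rw [sq_sub, sq_one, if_neg one_ne_zero, sub_zero, sq_w_mul, he, h3, map_mul, hqα, H.hy]
    have h1 : aw α₀ W (⟨u ^ ℓ, hW u⟩ : W)⁻¹ = α₀ (u ^ ℓ)⁻¹ := rfl
    rw [h1, ← mul_assoc, ← map_mul, inv_mul_cancel, map_one, one_mul]
  refine ⟨lf, G, ⟨hlf0, ?_, ?_, ?_, ?_⟩⟩
  · -- commutes with `W`
    intro u w
    rw [hlf]
    change D₀.w w * D₀.of _ = D₀.of _ * D₀.w w
    rw [D₀.w_mul_of, of_mul_w]
    congr 1
    funext n
    have hw : aw α₀ W w = α₀ (w : V) := rfl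
    rw [hw]
    split_ifs
    · rw [← map_mul, ← map_mul, mul_comm]
    · rw [mul_neg, neg_mul, hqaw u w w.2]
    · rw [mul_zero, zero_mul]
  · -- powers
    intro u hu
    have h1 := X_smul D₀ _ (hS0 u)
    have h2 : (1 : D₀.R) + (PowerSeries.X : F⟦X⟧) • G u =
        D₀.w (⟨u ^ ℓ, hW u⟩ : W)⁻¹ * lf u ^ ℓ := by
      rw [hG]
      change 1 + (PowerSeries.X : F⟦X⟧) • D₀.of _ = _
      rw [← h1]
      abel
    rw [h2, ← mul_assoc, ← map_mul, mul_inv_cancel, map_one, one_mul]
  · intro u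
    rw [hG]
    change D₀.sq (D₀.of _) 0 = D u
    rw [D₀.sq_of]
    exact hS1 u
  · -- commutators
    intro u v
    have hc1 : ∀ u v : V, ∃ e : A, D₀.sq (lf u * lf v) 1 = f.q e ∧
        C.i e = (ℓ : K)⁻¹ • C.i (α (u * v) * (h u + h v)) - g (C.i (α (u * v))) := by
      intro u v
      obtain ⟨e', he', hqe'⟩ := hm (α u) (α v)
      refine ⟨-(α u * a v) + -(a u * α v) + e', ?_, ?_⟩
      · rw [sq_mul_one, hlf0, hlf0, hlf1, hlf1, map_add, map_add, map_neg, map_neg, map_mul,
          map_mul, hqe', hqα, hqα, mul_neg, neg_mul]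
      · have h3 : ∀ u, C.i (a u) = g (C.i (α u)) - (ℓ : K)⁻¹ • C.i (α u * h u) := by
          intro u
          rw [ha u]
          abel
        have h4 : α (u * v) = α u * α v := map_mul _ _ _
        have h5 : α u * h u * α v = α u * α v * h u := by
          rw [mul_assoc, H.hv u v, mul_assoc]
        rw [map_add, map_add, map_neg, map_neg, map_mul, map_mul, he', h3, h3, h4, d1, mul_sub,
          sub_mul, mul_smul_comm, smul_mul_assoc, ← map_mul, ← map_mul, ← map_mul, h5, mul_add,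
          map_add, smul_add, ← mul_assoc]
        abel
    have hz1 : D₀.sq (lf u * lf v - lf v * lf u) 1 = 0 := by
      obtain ⟨e, he, hie⟩ := hc1 u v
      obtain ⟨e', he', hie'⟩ := hc1 v u
      have h6 : e = e' := by
        apply C.inj
        rw [hie, hie', mul_comm v u, add_comm (h v) (h u)]
      rw [sq_sub, he, he', h6, sub_self]
    have hz0 : D₀.sq (lf u * lf v - lf v * lf u) 0 = 0 := by
      rw [sq_sub, sq_mul_zero, sq_mul_zero, hlf0, hlf0, ← map_mul, ← map_mul, mul_comm v u,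
        sub_self]
    have h7 := X_smul D₀ _ hz0
    set Z1 := D₀.of (fun n => D₀.sq (lf u * lf v - lf v * lf u) (n + 1)) with hZ1
    have h8 : D₀.sq Z1 0 = 0 := by
      rw [hZ1, D₀.sq_of]
      exact hz1
    have h9 := X_smul D₀ Z1 h8
    refine ⟨D₀.of (fun n => D₀.sq Z1 (n + 1)), ?_⟩
    rw [pow_two, mul_smul, ← h9]
    exact h7

end Pool.Agent.PST.H19
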