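import Pool.Agent.PST.StmtsET3

/-!
# Squad PST, block ET, row MLT: a block is a multiple of a local idempotent modulo the commutators
-/

open scoped BigOperators TensorProduct

noncomputable section

namespace Pool.Agent.PST.ET.H19.M

open Pool.Agent.PFC (BK cj)
open Pool.Agent.PSS (FxR BKR cw Cl RF Uni)
open Pool.Agent.PSS.S5 (Loi Pci BorStmt RbkStmt)

theorem mem_fx {F V H : Type} [Field F] [CommGroup V] [Ring H] [Algebra F H] {α : V →* H}
    {m : H} (h : ∀ u, α u * m = m * α u) : m ∈ FxR (cw F α) ⊤ := by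
  have hcw : ∀ u : V, cw F α u m = α u * (m * α u⁻¹) := fun u => rfl
  intro u _
  rw [hcw, ← mul_assoc, h u, mul_assoc, ← map_mul, mul_inv_cancel, map_one, mul_one]

theorem mlt (hD : DciStmt) (hE : EqcStmt) (hB : BcmStmt) (hBor : BorStmt) (hRbk : RbkStmt)
    (hBki : Pool.Agent.PSS.S0.BkiStmt) (hZrt : Pool.Agent.PSS.S0.ZrtStmt) : MltStmt := by
  classical
  intro ℓ _ F V E H _ _ _ _ _ _ _ _ φ α hV hCl b j hb hj hbj
  have hfin := hCl.fin
  obtain ⟨lam, K, _, x, y, hRF, u, hu⟩ := hCl.rt
  have hbC : b ∈ FxR (cw F α) ⊤ := mem_fx fun v => (hb.cen (α v)).symm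
  obtain ⟨n, f, hf, hor, hsum⟩ := hD F V H α b hbC hb.id
  have hbk : BKR (cw F α) ⊤ = BK (cj F α) ⊤ := rfl
  -- the local summands
  have hloc : ∀ i, Loi F α (f i) → j - f i ∈ cmt F H ∧
      ∑ k, x k * j * y k = ∑ k, x k * f i * y k := by
    intro i hi
    obtain ⟨e, he⟩ := hBor ℓ F V E H φ α hV hCl b j (f i) hb hj hi hbj (hf i).2
    obtain ⟨y0, y0', h1, h2, h3⟩ := hCl.uni e
    exact hE F V H K α lam x y (φ e) j (f i) y0 y0' hRF h1 h2 h3 hj.fx hi.fx
      (he y0 y0' h1 h2 h3)
  set I : Finset (Fin n) := Finset.univ.filter fun i => Loi F α (f i) with hI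
  have hsplit : ∀ g : Fin n → H, ∑ i, g i = ∑ i ∈ I, g i + ∑ i ∈ Iᶜ, g i := by
    intro g
    rw [Finset.sum_add_sum_compl]
  have hnot : ∀ i ∈ Iᶜ, f i ∈ BKR (cw F α) ⊤ := by
    intro i hi
    rw [Finset.mem_compl, hI, Finset.mem_filter, not_and] at hi
    exact (hor i).resolve_left (hi (Finset.mem_univ i))
  have hin : ∀ i ∈ I, Loi F α (f i) := fun i hi => (Finset.mem_filter.1 hi).2
  refine ⟨I.card, ?_, ?_⟩
  · intro h0
    -- the relative trace of `b` is in the Brauer kernel
    have hrt : ∑ k, x k * b * y k ∈ BKR (cw F α) ⊤ := by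
      have h1 : ∑ k, x k * b * y k = ∑ i, ∑ k, x k * f i * y k := by
        rw [Finset.sum_comm]
        refine Finset.sum_congr rfl fun k _ => ?_
        rw [← hsum, Finset.mul_sum, Finset.sum_mul]
      rw [h1, hsplit]
      have h2 : ∑ i ∈ I, ∑ k, x k * f i * y k = 0 := by
        rw [Finset.sum_congr rfl fun i hi => (hloc i (hin i hi)).2.symm, Finset.sum_const,
          ← Nat.cast_smul_eq_nsmul F, h0, zero_smul]
      rw [h2, zero_add]
      exact Submodule.sum_mem _ fun i hi =>
        hRbk ℓ F V E H K φ α lam x y hV hCl.per hRF (f i) (hnot i hi)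
    have hζ : ∀ a : H, a * ∑ k, x k * y k = (∑ k, x k * y k) * a := by
      have h1 := hZrt F V H K α lam x y hRF
      have h2 := h1 1 (mem_fx fun v => by rw [mul_one, one_mul])
      intro a
      have h3 := h2 a
      simp only [mul_one] at h3
      exact h3
    have hζu : (∑ k, x k * y k) * u = 1 := by
      rw [← hζ u, hu]
    have huc : ∀ a : H, u * a = a * u := by
      intro a
      calc u * a = u * (a * ((∑ k, x k * y k) * u)) := by rw [hζu, mul_one]
        _ = u * (∑ k, x k * y k) * a * u := by rw [← mul_assoc a, hζ a]; simp only [mul_assoc]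
        _ = a * u := by rw [hu, one_mul]
    have hbz : ∑ k, x k * b * y k = b * ∑ k, x k * y k := by
      rw [Finset.mul_sum]
      refine Finset.sum_congr rfl fun k _ => ?_
      rw [← hb.cen (x k), mul_assoc]
    have hbu : b = u * ∑ k, x k * b * y k := by
      rw [hbz, ← mul_assoc, huc b, mul_assoc, hu, mul_one]
    have hbB : b ∈ BKR (cw F α) ⊤ := by
      rw [hbu]
      exact (hBki F V H α ⊤ u (mem_fx fun v => (huc (α v)).symm) _ hrt).1
    have hz : b ∈ BKR (cw F α) ⊥ := by
      refine hCl.blk ⊥ b hbC ?_ ?_ hbB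
      · rw [hb.id, sub_self]
        exact Submodule.zero_mem _
      · intro a _
        rw [hb.cen a, sub_self]
        exact Submodule.zero_mem _
    have hbot : BKR (cw F α) (⊥ : Subgroup V) = ⊥ := by
      rw [BKR, Submodule.span_eq_bot]
      rintro n ⟨P', S, m, hlt, -⟩
      exact absurd hlt not_lt_bot
    rw [hbot, Submodule.mem_bot] at hz
    exact hb.nz hz
  · have h1 : b - I.card • j = ∑ i ∈ I, (f i - j) + ∑ i ∈ Iᶜ, f i := by
      rw [Finset.sum_sub_distrib, Finset.sum_const, ← hsum, hsplit f]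
      abel
    rw [h1]
    refine Submodule.add_mem _ (Submodule.sum_mem _ fun i hi => ?_)
      (Submodule.sum_mem _ fun i hi => ?_)
    · have h2 := (hloc i (hin i hi)).1
      have h3 := Submodule.neg_mem _ h2
      rw [neg_sub] at h3
      exact h3
    · exact hB ℓ F V H α hV (f i) (hnot i hi)

end Pool.Agent.PST.ET.H19.M
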